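import Pool.Agent.LOT.Final

/-!
# MP_c801b5_gt: almost all labelled oriented trees are aspherical

The 2-complexes `K(Γ)` of labelled oriented trees `Γ` are the spines of ribbon disc complements, and Q1 is
equivalent to the asphericity of all of them. We prove that the proportion of those labelled oriented trees on
`n` vertices for which `K(Γ)` is aspherical tends to `1` as `n → ∞`.
-/

namespace Pool.Agent.Results.MP_c801b5_gt.AlmostAllLOT

open Finset Filter Topology

/-- A labelled oriented tree on the vertex set `Fin n`, given by the function `L`: `L a b = some c` means that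
there is an edge from `a` to `b` with label `c`, `L a b = none` that there is none. Every edge has one direction
only, and the underlying graph is a tree. -/
def IsLOT {n : ℕ} (L : Fin n → Fin n → Option (Fin n)) : Prop :=
  (∀ a b, (L a b).isSome = true → L b a = none) ∧
    (SimpleGraph.fromRel (fun a b => (L a b).isSome = true)).IsTree

/-- the edges of `L`; `e.1.1 = i(e)` is the initial vertex, `e.1.2 = t(e)` the terminal vertex -/
abbrev Edge {n : ℕ} (L : Fin n → Fin n → Option (Fin n)) : Type :=
  {p : Fin n × Fin n // (L p.1 p.2).isSome = true}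

/-- the label `λ(e)` -/
def lab {n : ℕ} (L : Fin n → Fin n → Option (Fin n)) (e : Edge L) : Fin n := (L e.1.1 e.1.2).get e.2

/-- the relator `i(e) λ(e) t(e)^{-1} λ(e)^{-1}` as a word (`(v, true)` is the letter `v`, `(v, false)` is `v^{-1}`) -/
def relWord {n : ℕ} (L : Fin n → Fin n → Option (Fin n)) (e : Edge L) : List (Fin n × Bool) :=
  [(e.1.1, true), (lab L e, true), (e.1.2, false), (lab L e, false)]

/-- the group of the presentation `P(Γ)`: one generator for every vertex, one relator for every edge -/
abbrev LOTGroup {n : ℕ} (L : Fin n → Fin n → Option (Fin n)) : Type :=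
  PresentedGroup (Set.range (fun e : Edge L => FreeGroup.mk (relWord L e)))

/-- the generator of `LOTGroup L` given by the vertex `v` -/
def gen {n : ℕ} (L : Fin n → Fin n → Option (Fin n)) (v : Fin n) : LOTGroup L := PresentedGroup.of v

/-- Fox derivative with respect to the generator `v` of a word, with values in the group ring of the group of
`L`: `∂(a w) = ∂a + a ∂w`, `∂(a^{-1} w) = -a^{-1} ∂a + a^{-1} ∂w`, `∂a = 1` if `a = v` and `0` otherwise -/
noncomputable def fox {n : ℕ} (L : Fin n → Fin n → Option (Fin n)) (v : Fin n) :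
    List (Fin n × Bool) → MonoidAlgebra ℤ (LOTGroup L)
  | [] => 0
  | (a, true) :: w => (if a = v then 1 else 0) + MonoidAlgebra.single (gen L a) 1 * fox L v w
  | (a, false) :: w => -(MonoidAlgebra.single (gen L a)⁻¹ 1 * (if a = v then 1 else 0))
      + MonoidAlgebra.single (gen L a)⁻¹ 1 * fox L v w

/-- The cellular boundary map `C_2 → C_1` of the universal covering of the presentation complex `K(Γ)`: `C_2` is the
free `ℤ[G]`-module on the edges (2-cells), `C_1` the free `ℤ[G]`-module on the vertices of `Γ` (1-cells), and the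
basis element `e` is mapped to `∑ v, (∂ r_e / ∂ v) v`. -/
noncomputable def boundary {n : ℕ} (L : Fin n → Fin n → Option (Fin n))
    (x : Edge L → MonoidAlgebra ℤ (LOTGroup L)) (v : Fin n) : MonoidAlgebra ℤ (LOTGroup L) :=
  ∑ e, x e * fox L v (relWord L e)

/-- `K(Γ)` is aspherical: `C_2 → C_1` is injective, i.e. `π_2(K(Γ)) = H_2` of the universal covering vanishes -/
def Aspherical {n : ℕ} (L : Fin n → Fin n → Option (Fin n)) : Prop :=
  Function.Injective (boundary L)

theorem relator_trivial {n : ℕ} (L : Fin n → Fin n → Option (Fin n)) (e : Edge L) :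
    gen L e.1.1 * gen L (lab L e) = gen L (lab L e) * gen L e.1.2 := by
  have h : PresentedGroup.mk (Set.range (fun e : Edge L => FreeGroup.mk (relWord L e)))
      (FreeGroup.mk (relWord L e)) = 1 := by
    refine (QuotientGroup.eq_one_iff _).2 (Subgroup.subset_normalClosure ⟨e, rfl⟩)
  have h2 : FreeGroup.mk (relWord L e)
      = FreeGroup.of e.1.1 * FreeGroup.of (lab L e) * (FreeGroup.of e.1.2)⁻¹
        * (FreeGroup.of (lab L e))⁻¹ := by
    rfl
  rw [h2, map_mul, map_mul, map_mul, map_inv, map_inv] at h
  have h3 : gen L e.1.1 * gen L (lab L e) * (gen L e.1.2)⁻¹ * (gen L (lab L e))⁻¹ = 1 := h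
  rw [mul_inv_eq_one, mul_inv_eq_iff_eq_mul] at h3
  exact h3

theorem fox_rel {n : ℕ} (L : Fin n → Fin n → Option (Fin n)) (e : Edge L) (v : Fin n) :
    fox L v (relWord L e) = Pool.Agent.LOT.jac (Pool.Agent.LOT.toLOG L) (gen L) e v := by
  have h1 := relator_trivial L e
  have h2 : gen L e.1.1 * (gen L (lab L e) * (gen L e.1.2)⁻¹) = gen L (lab L e) := by
    rw [← mul_assoc, h1, mul_inv_cancel_right]
  have h3 : gen L e.1.1 * (gen L (lab L e) * ((gen L e.1.2)⁻¹ * (gen L (lab L e))⁻¹)) = 1 := by
    rw [← mul_assoc (gen L (lab L e)), ← mul_assoc, h2, mul_inv_cancel]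
  have h4 : Pool.Agent.LOT.jac (Pool.Agent.LOT.toLOG L) (gen L) e v
      = (if e.1.1 = v then 1 else 0)
    + (if lab L e = v then MonoidAlgebra.single (gen L e.1.1) 1 else 0)
    - (if e.1.2 = v then MonoidAlgebra.single (gen L (lab L e)) 1 else 0)
    - (if lab L e = v then 1 else 0) := rfl
  rw [h4]
  simp only [fox, relWord]
  have e1 : (MonoidAlgebra.single (gen L e.1.1) (1 : ℤ)) * (MonoidAlgebra.single (gen L (lab L e)) (1 : ℤ)
      * (MonoidAlgebra.single (gen L e.1.2)⁻¹ (1 : ℤ)))
      = MonoidAlgebra.single (gen L (lab L e)) 1 := by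
    rw [MonoidAlgebra.single_mul_single, MonoidAlgebra.single_mul_single, h2, one_mul, one_mul]
  have e2 : (MonoidAlgebra.single (gen L e.1.1) (1 : ℤ)) * (MonoidAlgebra.single (gen L (lab L e)) (1 : ℤ)
      * (MonoidAlgebra.single (gen L e.1.2)⁻¹ (1 : ℤ)
        * MonoidAlgebra.single (gen L (lab L e))⁻¹ (1 : ℤ))) = 1 := by
    rw [MonoidAlgebra.single_mul_single, MonoidAlgebra.single_mul_single,
      MonoidAlgebra.single_mul_single, h3]
    simp [MonoidAlgebra.one_def]
  have e3 : (MonoidAlgebra.single (gen L e.1.1) (1 : ℤ)) * (if lab L e = v then 1 else 0)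
      = (if lab L e = v then MonoidAlgebra.single (gen L e.1.1) 1 else 0) := by
    split_ifs <;> simp
  have e4 : MonoidAlgebra.single (gen L e.1.1) (1 : ℤ) * (MonoidAlgebra.single (gen L (lab L e)) (1 : ℤ)
      * (MonoidAlgebra.single (gen L e.1.2)⁻¹ (1 : ℤ) * (if e.1.2 = v then 1 else 0)))
      = (if e.1.2 = v then MonoidAlgebra.single (gen L (lab L e)) 1 else 0) := by
    split_ifs
    · rw [mul_one, e1]
    · simp
  have e5 : MonoidAlgebra.single (gen L e.1.1) (1 : ℤ) * (MonoidAlgebra.single (gen L (lab L e)) (1 : ℤ)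
      * (MonoidAlgebra.single (gen L e.1.2)⁻¹ (1 : ℤ)
        * (MonoidAlgebra.single (gen L (lab L e))⁻¹ (1 : ℤ) * (if lab L e = v then 1 else 0))))
      = (if lab L e = v then 1 else 0) := by
    split_ifs
    · rw [mul_one, e2]
    · simp
  simp only [mul_add, mul_neg, mul_zero, add_zero, e3, e4, e5]
  abel

theorem asph_of {n : ℕ} (L : Fin n → Fin n → Option (Fin n))
    (h : Pool.Agent.LOT.Asph (Pool.Agent.LOT.toLOG L) (Pool.Agent.LOT.pgen (Pool.Agent.LOT.toLOG L))) :
    Aspherical L := by
  intro x y hxy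
  have h1 : ∀ v, ∑ e, (x - y) e * Pool.Agent.LOT.jac (Pool.Agent.LOT.toLOG L) (gen L) e v = 0 := by
    intro v
    have h2 := congrFun hxy v
    simp only [boundary, fox_rel] at h2
    simp only [Pi.sub_apply, sub_mul, sum_sub_distrib]
    exact sub_eq_zero.2 h2
  exact sub_eq_zero.1 (h (x - y) h1)

open Classical in
/-- The proportion of aspherical labelled oriented trees among all labelled oriented trees on `n` vertices tends
to `1`. -/
theorem result :
    Tendsto (fun n : ℕ =>
      (Fintype.card {L : Fin n → Fin n → Option (Fin n) // IsLOT L ∧ Aspherical L} : ℝ)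
        / (Fintype.card {L : Fin n → Fin n → Option (Fin n) // IsLOT L} : ℝ)) atTop (𝓝 1) := by
  have h0 := Pool.Agent.LOT.final_tendsto
  have h1 : ∀ n : ℕ, (Fintype.card {L : Fin n → Fin n → Option (Fin n) // IsLOT L})
      = (univ.filter (fun L : Fin n → Fin n → Option (Fin n) => Pool.Agent.LOT.IsLOT L)).card := by
    intro n
    rw [Fintype.card_subtype]
    rfl
  have h2 : ∀ n : ℕ,
      (univ.filter (fun L : Fin n → Fin n → Option (Fin n) => Pool.Agent.LOT.IsLOT L ∧
        Pool.Agent.LOT.Asph (Pool.Agent.LOT.toLOG L)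
          (Pool.Agent.LOT.pgen (Pool.Agent.LOT.toLOG L)))).card
      ≤ (Fintype.card {L : Fin n → Fin n → Option (Fin n) // IsLOT L ∧ Aspherical L}) := by
    intro n
    rw [Fintype.card_subtype]
    refine card_le_card ?_
    intro L hL
    simp only [mem_filter, mem_univ, true_and] at hL ⊢
    exact ⟨hL.1, asph_of L hL.2⟩
  have h3 : ∀ n : ℕ, (Fintype.card {L : Fin n → Fin n → Option (Fin n) // IsLOT L ∧ Aspherical L})
      ≤ (Fintype.card {L : Fin n → Fin n → Option (Fin n) // IsLOT L}) :=
    fun n => Fintype.card_subtype_mono _ _ (fun L hL => hL.1)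
  refine tendsto_of_tendsto_of_tendsto_of_le_of_le h0 tendsto_const_nhds (fun n => ?_) (fun n => ?_)
  · rw [h1 n]
    have := h2 n
    gcongr
  · refine div_le_one_of_le₀ ?_ (by positivity)
    exact Nat.cast_le.2 (h3 n)

end Pool.Agent.Results.MP_c801b5_gt.AlmostAllLOT
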