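import Pool.Agent.LOT.Fixed

/-!
# MP_c801b5_gt: almost all labellings of every oriented tree of moderate degree give aspherical complexes

The 2-complexes `K(Γ)` of labelled oriented trees `Γ` are the spines of ribbon disc complements, and Q1 is
equivalent to the asphericity of all of them. Here the oriented tree is fixed and arbitrary (for instance a path
with any orientations: labelled oriented intervals); all but a fraction `C (Δ + 1) ^ 264 / n` of the labellings of
an oriented tree with `n` vertices and degrees at most `Δ` give an aspherical `K(Γ)`.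
-/

namespace Pool.Agent.Results.MP_c801b5_gt.FixedTreeLabellings

open Finset

/-- the relator `i(e) λ(e) t(e)^{-1} λ(e)^{-1}` of the edge `e` as a word (`(v, true)` is the letter `v`,
`(v, false)` is `v^{-1}`) -/
def relWord {m : ℕ} (i t lam : Fin m → Fin (m + 1)) (e : Fin m) : List (Fin (m + 1) × Bool) :=
  [(i e, true), (lam e, true), (t e, false), (lam e, false)]

/-- the group of the presentation `P(Γ)`: one generator for every vertex, one relator for every edge -/
abbrev LOTGroup {m : ℕ} (i t lam : Fin m → Fin (m + 1)) : Type :=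
  PresentedGroup (Set.range (fun e : Fin m => FreeGroup.mk (relWord i t lam e)))

/-- the generator of `LOTGroup` given by the vertex `v` -/
def gen {m : ℕ} (i t lam : Fin m → Fin (m + 1)) (v : Fin (m + 1)) : LOTGroup i t lam := PresentedGroup.of v

/-- Fox derivative with respect to the generator `v` of a word, with values in the group ring:
`∂(a w) = ∂a + a ∂w`, `∂(a^{-1} w) = -a^{-1} ∂a + a^{-1} ∂w`, `∂a = 1` if `a = v` and `0` otherwise -/
noncomputable def fox {m : ℕ} (i t lam : Fin m → Fin (m + 1)) (v : Fin (m + 1)) :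
    List (Fin (m + 1) × Bool) → MonoidAlgebra ℤ (LOTGroup i t lam)
  | [] => 0
  | (a, true) :: w => (if a = v then 1 else 0) + MonoidAlgebra.single (gen i t lam a) 1 * fox i t lam v w
  | (a, false) :: w => -(MonoidAlgebra.single (gen i t lam a)⁻¹ 1 * (if a = v then 1 else 0))
      + MonoidAlgebra.single (gen i t lam a)⁻¹ 1 * fox i t lam v w

/-- The cellular boundary map `C_2 → C_1` of the universal covering of the presentation complex `K(Γ)`: `C_2` is the
free `ℤ[G]`-module on the edges (2-cells), `C_1` the free `ℤ[G]`-module on the vertices of `Γ` (1-cells), and the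
basis element `e` is mapped to `∑ v, (∂ r_e / ∂ v) v`. -/
noncomputable def boundary {m : ℕ} (i t lam : Fin m → Fin (m + 1))
    (x : Fin m → MonoidAlgebra ℤ (LOTGroup i t lam)) (v : Fin (m + 1)) : MonoidAlgebra ℤ (LOTGroup i t lam) :=
  ∑ e, x e * fox i t lam v (relWord i t lam e)

/-- `K(Γ)` is aspherical: `C_2 → C_1` is injective, i.e. `π_2(K(Γ)) = H_2` of the universal covering vanishes -/
def Aspherical {m : ℕ} (i t lam : Fin m → Fin (m + 1)) : Prop :=
  Function.Injective (boundary i t lam)

/-- `m` directed edges `i(e) → t(e)` on the `m + 1` vertices `0, ..., m` forming a tree -/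
def IsOrientedTree {m : ℕ} (i t : Fin m → Fin (m + 1)) : Prop :=
  (SimpleGraph.fromRel (fun a b => ∃ e, i e = a ∧ t e = b)).IsTree

theorem relator_trivial {m : ℕ} (i t lam : Fin m → Fin (m + 1)) (e : Fin m) :
    gen i t lam (i e) * gen i t lam (lam e) = gen i t lam (lam e) * gen i t lam (t e) := by
  have h : PresentedGroup.mk (Set.range (fun e : Fin m => FreeGroup.mk (relWord i t lam e)))
      (FreeGroup.mk (relWord i t lam e)) = 1 := by
    refine (QuotientGroup.eq_one_iff _).2 (Subgroup.subset_normalClosure ⟨e, rfl⟩)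
  have h2 : FreeGroup.mk (relWord i t lam e)
      = FreeGroup.of (i e) * FreeGroup.of (lam e) * (FreeGroup.of (t e))⁻¹
        * (FreeGroup.of (lam e))⁻¹ := by
    rfl
  rw [h2, map_mul, map_mul, map_mul, map_inv, map_inv] at h
  have h3 : gen i t lam (i e) * gen i t lam (lam e) * (gen i t lam (t e))⁻¹ * (gen i t lam (lam e))⁻¹ = 1 := h
  rw [mul_inv_eq_one, mul_inv_eq_iff_eq_mul] at h3
  exact h3

theorem fox_rel {m : ℕ} (i t lam : Fin m → Fin (m + 1)) (e : Fin m) (v : Fin (m + 1)) :
    fox i t lam v (relWord i t lam e)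
      = Pool.Agent.LOT.jac (⟨i, t, lam⟩ : Pool.Agent.LOT.LOG (Fin (m + 1)) (Fin m)) (gen i t lam) e v := by
  have h1 := relator_trivial i t lam e
  have h2 : gen i t lam (i e) * (gen i t lam (lam e) * (gen i t lam (t e))⁻¹) = gen i t lam (lam e) := by
    rw [← mul_assoc, h1, mul_inv_cancel_right]
  have h3 : gen i t lam (i e) * (gen i t lam (lam e) * ((gen i t lam (t e))⁻¹ * (gen i t lam (lam e))⁻¹)) = 1 := by
    rw [← mul_assoc (gen i t lam (lam e)), ← mul_assoc, h2, mul_inv_cancel]
  have h4 : Pool.Agent.LOT.jac (⟨i, t, lam⟩ : Pool.Agent.LOT.LOG (Fin (m + 1)) (Fin m)) (gen i t lam) e v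
      = (if i e = v then 1 else 0)
    + (if lam e = v then MonoidAlgebra.single (gen i t lam (i e)) 1 else 0)
    - (if t e = v then MonoidAlgebra.single (gen i t lam (lam e)) 1 else 0)
    - (if lam e = v then 1 else 0) := rfl
  rw [h4]
  simp only [fox, relWord]
  have e1 : (MonoidAlgebra.single (gen i t lam (i e)) (1 : ℤ))
      * (MonoidAlgebra.single (gen i t lam (lam e)) (1 : ℤ)
      * (MonoidAlgebra.single (gen i t lam (t e))⁻¹ (1 : ℤ)))
      = MonoidAlgebra.single (gen i t lam (lam e)) 1 := by
    rw [MonoidAlgebra.single_mul_single, MonoidAlgebra.single_mul_single, h2, one_mul, one_mul]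
  have e2 : (MonoidAlgebra.single (gen i t lam (i e)) (1 : ℤ))
      * (MonoidAlgebra.single (gen i t lam (lam e)) (1 : ℤ)
      * (MonoidAlgebra.single (gen i t lam (t e))⁻¹ (1 : ℤ)
        * MonoidAlgebra.single (gen i t lam (lam e))⁻¹ (1 : ℤ))) = 1 := by
    rw [MonoidAlgebra.single_mul_single, MonoidAlgebra.single_mul_single,
      MonoidAlgebra.single_mul_single, h3]
    simp [MonoidAlgebra.one_def]
  have e3 : (MonoidAlgebra.single (gen i t lam (i e)) (1 : ℤ)) * (if lam e = v then 1 else 0)
      = (if lam e = v then MonoidAlgebra.single (gen i t lam (i e)) 1 else 0) := by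
    split_ifs <;> simp
  have e4 : MonoidAlgebra.single (gen i t lam (i e)) (1 : ℤ)
      * (MonoidAlgebra.single (gen i t lam (lam e)) (1 : ℤ)
      * (MonoidAlgebra.single (gen i t lam (t e))⁻¹ (1 : ℤ) * (if t e = v then 1 else 0)))
      = (if t e = v then MonoidAlgebra.single (gen i t lam (lam e)) 1 else 0) := by
    split_ifs
    · rw [mul_one, e1]
    · simp
  have e5 : MonoidAlgebra.single (gen i t lam (i e)) (1 : ℤ)
      * (MonoidAlgebra.single (gen i t lam (lam e)) (1 : ℤ)
      * (MonoidAlgebra.single (gen i t lam (t e))⁻¹ (1 : ℤ)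
        * (MonoidAlgebra.single (gen i t lam (lam e))⁻¹ (1 : ℤ) * (if lam e = v then 1 else 0))))
      = (if lam e = v then 1 else 0) := by
    split_ifs
    · rw [mul_one, e2]
    · simp
  simp only [mul_add, mul_neg, mul_zero, add_zero, e3, e4, e5]
  abel

theorem asph_of {m : ℕ} (i t lam : Fin m → Fin (m + 1))
    (h : Pool.Agent.LOT.Asph (⟨i, t, lam⟩ : Pool.Agent.LOT.LOG (Fin (m + 1)) (Fin m))
      (Pool.Agent.LOT.pgen ⟨i, t, lam⟩)) :
    Aspherical i t lam := by
  intro x y hxy
  have h1 : ∀ v, ∑ e, (x - y) e * Pool.Agent.LOT.jac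
      (⟨i, t, lam⟩ : Pool.Agent.LOT.LOG (Fin (m + 1)) (Fin m)) (gen i t lam) e v = 0 := by
    intro v
    have h2 := congrFun hxy v
    simp only [boundary, fox_rel] at h2
    simp only [Pi.sub_apply, sub_mul, sum_sub_distrib]
    exact sub_eq_zero.2 h2
  exact sub_eq_zero.1 (h (x - y) h1)

open Classical in
/-- There is an absolute constant `C` such that for every oriented tree with `n = m + 1` vertices, all of degree at
most `Δ`, at most `C (Δ + 1) ^ 264 / n` times the number `n ^ m` of all labellings have non-aspherical `K(Γ)`. -/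
theorem result :
    ∃ C : ℕ, ∀ (m Δ : ℕ) (i t : Fin m → Fin (m + 1)), IsOrientedTree i t →
      (∀ v, (univ.filter (fun e => i e = v ∨ t e = v)).card ≤ Δ) →
      (univ.filter (fun lam : Fin m → Fin (m + 1) => ¬ Aspherical i t lam)).card * (m + 1)
        ≤ C * (Δ + 1) ^ 264 * (m + 1) ^ m := by
  obtain ⟨C, hC⟩ := Pool.Agent.LOT.fixed_tree
  refine ⟨C, fun m Δ i t hT hΔ => ?_⟩
  refine le_trans (Nat.mul_le_mul_right _ (card_le_card ?_)) (hC m Δ i t hT hΔ)
  intro lam hlam
  simp only [mem_filter, mem_univ, true_and] at hlam ⊢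
  exact fun h => hlam (asph_of i t lam h)

end Pool.Agent.Results.MP_c801b5_gt.FixedTreeLabellings
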