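import Pool.Agent.KTR.Fin
import Pool.Agent.KTR.Eg

/-!
# MP_c801b5_gt: a Kan-Thurston theorem for labelled oriented trees

The 2-complexes `K(Γ)` of labelled oriented trees `Γ` are the spines of ribbon disc complements, and Q1 is
equivalent to the asphericity of all of them. We prove that every `Γ` with `m` edges is covered by a labelled
oriented tree `Γ'` with `28 m` edges whose label graph has girth at least `5` (so `K(Γ')` is a locally CAT(0) square
complex whose universal cover has no flats), with `K(Γ')` aspherical, every vertex a label at most twice, and there is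
a generator preserving surjection of the groups whose kernel `N` is perfect, with `π_2(K(Γ)) ≅ H_2(N; ℤ)`.
-/

namespace Pool.Agent.Results.MP_c801b5_gt.KanThurston

open Finset

/-- A labelled oriented graph with the edges `0, ..., m - 1` and the vertices `0, ..., m`: initial vertex, terminal
vertex and label of every edge. -/
structure Graph (m : ℕ) where
  i : Fin m → Fin (m + 1)
  t : Fin m → Fin (m + 1)
  lam : Fin m → Fin (m + 1)

/-- the underlying graph is a tree -/
def IsLOT {m : ℕ} (Γ : Graph m) : Prop :=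
  (SimpleGraph.fromRel (fun a b => ∃ e, Γ.i e = a ∧ Γ.t e = b)).IsTree

/-- the relator `i(e) λ(e) t(e)^{-1} λ(e)^{-1}` of the edge `e` as a word (`(v, true)` is the letter `v`,
`(v, false)` is `v^{-1}`) -/
def word {m : ℕ} (Γ : Graph m) (e : Fin m) : List (Fin (m + 1) × Bool) :=
  [(Γ.i e, true), (Γ.lam e, true), (Γ.t e, false), (Γ.lam e, false)]

/-- the group of the presentation `P(Γ)`: one generator for every vertex, one relator for every edge -/
abbrev Grp {m : ℕ} (Γ : Graph m) : Type := PresentedGroup (Set.range (fun e : Fin m => FreeGroup.mk (word Γ e)))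

/-- the generator given by the vertex `v` -/
def gen {m : ℕ} (Γ : Graph m) (v : Fin (m + 1)) : Grp Γ := PresentedGroup.of v

/-- Fox derivative with respect to the generator `v` of a word, with values in the group ring:
`∂(a w) = ∂a + a ∂w`, `∂(a^{-1} w) = -a^{-1} ∂a + a^{-1} ∂w`, `∂a = 1` if `a = v` and `0` otherwise -/
noncomputable def fox {m : ℕ} (Γ : Graph m) (v : Fin (m + 1)) :
    List (Fin (m + 1) × Bool) → MonoidAlgebra ℤ (Grp Γ)
  | [] => 0
  | (a, true) :: w => (if a = v then 1 else 0) + MonoidAlgebra.single (gen Γ a) 1 * fox Γ v w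
  | (a, false) :: w => -(MonoidAlgebra.single (gen Γ a)⁻¹ 1 * (if a = v then 1 else 0))
      + MonoidAlgebra.single (gen Γ a)⁻¹ 1 * fox Γ v w

/-- The cellular boundary map `C_2 → C_1` of the universal covering of the presentation complex `K(Γ)`: `C_2` is the
free `ℤ[G]`-module on the edges (2-cells), `C_1` the free `ℤ[G]`-module on the vertices of `Γ` (1-cells), and the
basis element `e` is mapped to `∑ v, (∂ r_e / ∂ v) v`. -/
noncomputable def boundary {m : ℕ} (Γ : Graph m) (x : Fin m → MonoidAlgebra ℤ (Grp Γ)) (v : Fin (m + 1)) :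
    MonoidAlgebra ℤ (Grp Γ) :=
  ∑ e, x e * fox Γ v (word Γ e)

/-- `π_2(K(Γ)) = H_2` of the universal covering: the kernel of `C_2 → C_1` -/
def piTwo {m : ℕ} (Γ : Graph m) : Set (Fin m → MonoidAlgebra ℤ (Grp Γ)) := {x | ∀ v, boundary Γ x v = 0}

/-- `K(Γ)` is aspherical: `π_2(K(Γ)) = 0` (then all higher homotopy groups vanish) -/
def Aspherical {m : ℕ} (Γ : Graph m) : Prop := ∀ x ∈ piTwo Γ, x = 0

/-- the label graph: every edge `e` of `Γ` gives the two arcs joining `λ(e)` to `i(e)` and to `t(e)` -/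
def labelGraph {m : ℕ} (Γ : Graph m) : SimpleGraph (Fin (m + 1)) :=
  SimpleGraph.fromRel (fun a b => ∃ e, (Γ.i e = a ∨ Γ.t e = a) ∧ Γ.lam e = b)

/-- the `2 m` arcs of the label graph are not loops and pairwise different, and the label graph has no cycles of
length at most `4`; so closed reduced paths in the link of `K(Γ)` have length at least `4`, and those of length `4`
are `a⁺, λ(e), a⁻, λ(e')` for two edges `e, e'` at the vertex `a` -/
def LabelGirthFive {m : ℕ} (Γ : Graph m) : Prop :=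
  (∀ e, Γ.lam e ≠ Γ.i e ∧ Γ.lam e ≠ Γ.t e) ∧
    Function.Injective (fun h : Fin m × Bool => s(if h.2 then Γ.i h.1 else Γ.t h.1, Γ.lam h.1)) ∧
    5 ≤ (labelGraph Γ).egirth

/-- every vertex is the label of at most two edges -/
def LabelsAtMostTwice {m : ℕ} (Γ : Graph m) : Prop :=
  ∀ v, (univ.filter (fun e => Γ.lam e = v)).card ≤ 2

/-- `p : U → N` is the universal central extension of `N`: `p` is onto with central kernel, `U` is perfect and
every central extension of `U` splits -/
def IsUniversalCentralExtension {U N : Type} [Group U] [Group N] (p : U →* N) : Prop :=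
  Function.Surjective p ∧ p.ker ≤ Subgroup.center U ∧ commutator U = ⊤ ∧
    ∀ (W : Type) [Group W] (q : W →* U), Function.Surjective q → q.ker ≤ Subgroup.center W →
      ∃ s : U →* W, q.comp s = MonoidHom.id U

/-- `N` is perfect and `H_2(N; ℤ) ≅ S`, where `S` is a set closed under addition in `A`: there are a universal
central extension `p` of `N` and an additive bijection `θ` of the kernel of `p` onto `S` -/
def PerfectWithSchurMultiplier (N : Type) [Group N] {A : Type} [Add A] (S : Set A) : Prop :=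
  commutator N = ⊤ ∧ ∃ (U : Type) (_ : Group U) (p : U →* N) (θ : p.ker → A), IsUniversalCentralExtension p ∧
    (∀ a b, θ (a * b) = θ a + θ b) ∧ Function.Injective θ ∧ Set.range θ = S

/-- there is a homomorphism `φ` of the groups of `Γ'` and `Γ` which maps the generator `v` to the generator `f v`, with
`f` onto (so `φ` is onto), whose kernel `N` is perfect with `H_2(N; ℤ) ≅ π_2(K(Γ))` -/
def KanThurstonMap {n m : ℕ} (Γ' : Graph n) (Γ : Graph m) : Prop :=
  ∃ (φ : Grp Γ' →* Grp Γ) (f : Fin (n + 1) → Fin (m + 1)), Function.Surjective f ∧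
    (∀ v, φ (gen Γ' v) = gen Γ (f v)) ∧ PerfectWithSchurMultiplier φ.ker (piTwo Γ)

/-- the labelled oriented graph as in the library -/
def toLOG {m : ℕ} (Γ : Graph m) : Pool.Agent.LOT.LOG (Fin (m + 1)) (Fin m) := ⟨Γ.i, Γ.t, Γ.lam⟩

theorem relator_trivial {m : ℕ} (Γ : Graph m) (e : Fin m) :
    gen Γ (Γ.i e) * gen Γ (Γ.lam e) = gen Γ (Γ.lam e) * gen Γ (Γ.t e) :=
  Pool.Agent.LOT.gen_rel (Pool.Agent.LOT.isPres_pgen (toLOG Γ)) e

theorem fox_rel {m : ℕ} (Γ : Graph m) (e : Fin m) (v : Fin (m + 1)) :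
    fox Γ v (word Γ e) = Pool.Agent.LOT.jac (toLOG Γ) (gen Γ) e v := by
  have h1 := relator_trivial Γ e
  have h2 : gen Γ (Γ.i e) * (gen Γ (Γ.lam e) * (gen Γ (Γ.t e))⁻¹) = gen Γ (Γ.lam e) := by
    rw [← mul_assoc, h1, mul_inv_cancel_right]
  have h3 : gen Γ (Γ.i e) * (gen Γ (Γ.lam e) * ((gen Γ (Γ.t e))⁻¹ * (gen Γ (Γ.lam e))⁻¹)) = 1 := by
    rw [← mul_assoc (gen Γ (Γ.lam e)), ← mul_assoc, h2, mul_inv_cancel]
  have h4 : Pool.Agent.LOT.jac (toLOG Γ) (gen Γ) e v
      = (if Γ.i e = v then 1 else 0)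
    + (if Γ.lam e = v then MonoidAlgebra.single (gen Γ (Γ.i e)) 1 else 0)
    - (if Γ.t e = v then MonoidAlgebra.single (gen Γ (Γ.lam e)) 1 else 0)
    - (if Γ.lam e = v then 1 else 0) := rfl
  rw [h4]
  simp only [fox, word]
  have e1 : (MonoidAlgebra.single (gen Γ (Γ.i e)) (1 : ℤ))
      * (MonoidAlgebra.single (gen Γ (Γ.lam e)) (1 : ℤ)
      * (MonoidAlgebra.single (gen Γ (Γ.t e))⁻¹ (1 : ℤ)))
      = MonoidAlgebra.single (gen Γ (Γ.lam e)) 1 := by
    rw [MonoidAlgebra.single_mul_single, MonoidAlgebra.single_mul_single, h2, one_mul, one_mul]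
  have e2 : (MonoidAlgebra.single (gen Γ (Γ.i e)) (1 : ℤ))
      * (MonoidAlgebra.single (gen Γ (Γ.lam e)) (1 : ℤ)
      * (MonoidAlgebra.single (gen Γ (Γ.t e))⁻¹ (1 : ℤ)
        * MonoidAlgebra.single (gen Γ (Γ.lam e))⁻¹ (1 : ℤ))) = 1 := by
    rw [MonoidAlgebra.single_mul_single, MonoidAlgebra.single_mul_single,
      MonoidAlgebra.single_mul_single, h3]
    simp [MonoidAlgebra.one_def]
  have e3 : (MonoidAlgebra.single (gen Γ (Γ.i e)) (1 : ℤ)) * (if Γ.lam e = v then 1 else 0)
      = (if Γ.lam e = v then MonoidAlgebra.single (gen Γ (Γ.i e)) 1 else 0) := by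
    split_ifs <;> simp
  have e4 : MonoidAlgebra.single (gen Γ (Γ.i e)) (1 : ℤ)
      * (MonoidAlgebra.single (gen Γ (Γ.lam e)) (1 : ℤ)
      * (MonoidAlgebra.single (gen Γ (Γ.t e))⁻¹ (1 : ℤ) * (if Γ.t e = v then 1 else 0)))
      = (if Γ.t e = v then MonoidAlgebra.single (gen Γ (Γ.lam e)) 1 else 0) := by
    split_ifs
    · rw [mul_one, e1]
    · simp
  have e5 : MonoidAlgebra.single (gen Γ (Γ.i e)) (1 : ℤ)
      * (MonoidAlgebra.single (gen Γ (Γ.lam e)) (1 : ℤ)
      * (MonoidAlgebra.single (gen Γ (Γ.t e))⁻¹ (1 : ℤ)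
        * (MonoidAlgebra.single (gen Γ (Γ.lam e))⁻¹ (1 : ℤ) * (if Γ.lam e = v then 1 else 0))))
      = (if Γ.lam e = v then 1 else 0) := by
    split_ifs
    · rw [mul_one, e2]
    · simp
  simp only [mul_add, mul_neg, mul_zero, add_zero, e3, e4, e5]
  abel

theorem boundary_eq {m : ℕ} (Γ : Graph m) (x : Fin m → MonoidAlgebra ℤ (Grp Γ)) (v : Fin (m + 1)) :
    boundary Γ x v = Pool.Agent.KTR.bd (toLOG Γ) (gen Γ) x v := by
  simp only [boundary, Pool.Agent.KTR.bd, fox_rel]

theorem mem_piTwo {m : ℕ} (Γ : Graph m) (x : Fin m → MonoidAlgebra ℤ (Grp Γ)) :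
    x ∈ piTwo Γ ↔ x ∈ Pool.Agent.KTR.ker2 (toLOG Γ) (gen Γ) := by
  change (∀ v, boundary Γ x v = 0) ↔ (∀ v, Pool.Agent.KTR.bd (toLOG Γ) (gen Γ) x v = 0)
  simp only [boundary_eq]

/-- For every labelled oriented tree `Γ` with `m` edges there is a labelled oriented tree `Γ'` with `28 m` edges whose
label graph has girth at least `5`, in which every vertex is a label at most twice, with aspherical `K(Γ')`, and a
generator preserving surjective homomorphism of the groups whose kernel `N` is perfect with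
`H_2(N; ℤ) ≅ π_2(K(Γ))`. -/
theorem result (m : ℕ) (Γ : Graph m) (hT : IsLOT Γ) :
    ∃ Γ' : Graph (28 * m), IsLOT Γ' ∧ LabelGirthFive Γ' ∧ LabelsAtMostTwice Γ' ∧ Aspherical Γ' ∧
      KanThurstonMap Γ' Γ := by
  obtain ⟨Γ', f, φ, h1, h2, h3, h4, h5, h6, h7, U, iU, p, h8, h9, h10, h11, ⟨ψ⟩⟩ :=
    Pool.Agent.KTR.final m (toLOG Γ) hT
  refine ⟨⟨Γ'.i, Γ'.t, Γ'.l⟩, h1, ⟨?_, ?_, ?_⟩, ?_, ?_, φ, f, h5, h6,
    h7, U, iU, p, fun a => (ψ (Additive.ofMul a)).1, ⟨h8, h9, h10, h11⟩, ?_, ?_, ?_⟩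
  · intro e
    exact ⟨fun h => h2.loop (e, true) h.symm, fun h => h2.loop (e, false) h.symm⟩
  · intro h h' hh
    refine h2.inj h h' ?_
    have h0 : s(if h.2 then Γ'.i h.1 else Γ'.t h.1, Γ'.l h.1)
        = s(if h'.2 then Γ'.i h'.1 else Γ'.t h'.1, Γ'.l h'.1) := hh
    rw [Sym2.eq_iff] at h0
    exact h0
  · exact Pool.Agent.KTR.egirth_of_girth5 Γ' h2
  · intro v
    have h := h3 v
    exact h
  · intro x hx
    rw [mem_piTwo] at hx
    exact h4 x hx
  · intro a b
    exact congrArg Subtype.val (map_add ψ (Additive.ofMul a) (Additive.ofMul b))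
  · intro a b hab
    exact Additive.ofMul.injective (ψ.injective (Subtype.ext hab))
  · ext x
    rw [mem_piTwo]
    constructor
    · rintro ⟨a, rfl⟩
      exact (ψ (Additive.ofMul a)).2
    · intro hx
      refine ⟨Additive.toMul (ψ.symm ⟨x, hx⟩), ?_⟩
      change (ψ (ψ.symm ⟨x, hx⟩)).1 = x
      rw [AddEquiv.apply_symm_apply]

end Pool.Agent.Results.MP_c801b5_gt.KanThurston
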