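import Pool.Agent.NCC.Dm
import Pool.Agent.NCC.Ob
import Pool.Agent.NCC.Dr
import Pool.Agent.NCC.Ij

/-!
# MP_c801b5_gt: labelled oriented trees without cancellation are aspherical

Let `Γ` be a labelled oriented tree on the vertices `0, ..., m`. A choice `F` selects for every edge `e` the pair
`i(e), λ(e)` or the pair `λ(e), t(e)`; its determinant is not zero if and only if the selected pairs form a spanning
tree (`F` is a state), and the Alexander polynomial of `Γ` is the sum of `det(F) t ^ expo(F)` over all states. If all
states of least exponent, or all states of greatest exponent, have the same sign, then `K(Γ)` is aspherical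
(`oneBlock`). The theorem `result` is the same statement for trees filtered by subtrees which are closed under
labels: the condition is imposed on every block (`ρ` is the rank function of the filtration, lowest and highest degree
may be mixed). The theorems `directedTo`, `directedFrom` and `injectiveLabels` are special cases.
-/

set_option autoImplicit false

namespace Pool.Agent.Results.MP_c801b5_gt.NoCancellation

/-- Labelled oriented trees whose blocks have no cancellation in lowest or highest degree are aspherical. -/
theorem result {m : ℕ} (i lam t : Fin m → Fin (m + 1)) (hT : NCL.IsOrientedTree i t)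
    (ρ : Fin (m + 1) → ℕ) (hlam : ∀ e, ρ (lam e) ≤ max (ρ (i e)) (ρ (t e)))
    (h : ∀ k, ∃ c : NCL.Block i t ρ k → Fin (m + 1), NCL.IsColumns i t ρ k c ∧
      (NCL.NoCancelLow (fun e : NCL.Block i t ρ k => i e.1) (fun e => lam e.1) (fun e => t e.1) c ∨
        NCL.NoCancelHigh (fun e : NCL.Block i t ρ k => i e.1) (fun e => lam e.1) (fun e => t e.1) c)) :
    NCL.Aspherical i lam t :=
  NCC.asph i lam t hT ρ hlam h

/-- The case of one block: no cancellation in the lowest or highest degree of the Alexander polynomial. -/
theorem oneBlock {m : ℕ} (i lam t : Fin m → Fin (m + 1)) (hT : NCL.IsOrientedTree i t)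
    (h : NCL.NoCancelLow i lam t Fin.succ ∨ NCL.NoCancelHigh i lam t Fin.succ) :
    NCL.Aspherical i lam t :=
  NCC.one_block i lam t hT h

/-- Trees directed to one vertex (no vertex is the initial vertex of two edges), arbitrary labels. -/
theorem directedTo {m : ℕ} (i lam t : Fin m → Fin (m + 1)) (hT : NCL.IsOrientedTree i t)
    (hi : Function.Injective i) : NCL.Aspherical i lam t :=
  oneBlock i lam t hT (Or.inl (NCC.directed_low i lam t hi))

/-- Trees directed away from one vertex (no vertex is the terminal vertex of two edges), arbitrary labels. -/
theorem directedFrom {m : ℕ} (i lam t : Fin m → Fin (m + 1)) (hT : NCL.IsOrientedTree i t)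
    (ht : Function.Injective t) : NCL.Aspherical i lam t :=
  oneBlock i lam t hT (Or.inr (NCC.directed_high i lam t ht))

/-- Injective labelled oriented trees (no vertex is the label of two edges). -/
theorem injectiveLabels {m : ℕ} (i lam t : Fin m → Fin (m + 1)) (hT : NCL.IsOrientedTree i t)
    (hl : Function.Injective lam) : NCL.Aspherical i lam t :=
  oneBlock i lam t hT (Or.inl (NCC.injective_low i lam t hl))

end Pool.Agent.Results.MP_c801b5_gt.NoCancellation
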